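import Pool.Agent.MMS15.Fin15

/-- The exact threshold `f(k) = N_k` in the Manickam–Miklós–Singhi problem for every `k ≥ 10 ^ 26`: the least `m` such that
for all `n ≥ m` every `x ∈ ℝ^n` with nonnegative sum has at least `(n-1).choose (k-1)` nonnegative `k`-subset sums is the
least `N ≥ k` with `(N-3).choose k ≥ (N-1).choose (k-1)`.  This is the statement `S06993` with `3 ≤ k` replaced by
`10 ^ 26 ≤ k`. -/
theorem Pool.Agent.Results.MP_0665ce_co.ExactLarge.result :
    ∀ k : ℕ, 10 ^ 26 ≤ k →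
      sInf {m : ℕ | ∀ n : ℕ, m ≤ n → ∀ x : Fin n → ℝ, 0 ≤ ∑ i, x i →
          (n - 1).choose (k - 1) ≤
            (((Finset.univ : Finset (Fin n)).powersetCard k).filter
              (fun s => 0 ≤ ∑ i ∈ s, x i)).card}
        = sInf {N : ℕ | k ≤ N ∧ (N - 1).choose (k - 1) ≤ (N - 3).choose k} :=
  fun k hk => Pool.Agent.MMS15.exact_large k hk
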