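import Pool.Agent.H36.MMSFinal

/-- The Manickam–Miklós–Singhi inequality holds for every `k ≥ 1` and every `n ≥ 9 k`:
if `x ∈ ℝ^n` has nonnegative sum then at least `(n-1).choose (k-1)` of its `k`-subset sums are
nonnegative.  In the notation of the problem, `f(k) ≤ 9 k`. -/
theorem Pool.Agent.Results.MP_0665ce_co.LinearBound.result :
    ∀ k n : ℕ, 1 ≤ k → 9 * k ≤ n → ∀ x : Fin n → ℝ, 0 ≤ ∑ i, x i →
      (n - 1).choose (k - 1) ≤
        (((Finset.univ : Finset (Fin n)).powersetCard k).filter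
          (fun s => 0 ≤ ∑ i ∈ s, x i)).card :=
  Pool.Agent.H36.MMS.mms_nine
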